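import Mathlib
import Pool.Agent.R371.QD.Expl

/-!
# The octic field of `x⁸ + 84 x⁶ + 1260 x⁴ + 5292 x² + 441` lies in the compositum of the dihedral
octic extensions of `ℚ`
-/

set_option autoImplicit false

namespace Pool.Agent.Results.MP_0ba956_nt.OcticInCompositum

/-- The compositum of all Galois extensions of `ℚ` (inside the algebraic closure) whose Galois group
is the dihedral group of order `8`. -/
noncomputable def dihedralCompositum : IntermediateField ℚ (AlgebraicClosure ℚ) :=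
  sSup {L : IntermediateField ℚ (AlgebraicClosure ℚ) |
    IsGalois ℚ L ∧ Nonempty ((L ≃ₐ[ℚ] L) ≃* DihedralGroup 4)}

open Pool.Agent.R371.QD

theorem not_isSquare_nat {n m : ℕ} (h1 : m * m < n) (h2 : n < (m + 1) * (m + 1)) :
    ¬ IsSquare (n : ℚ) := by
  rw [Rat.isSquare_natCast_iff]
  rintro ⟨r, hr⟩
  have h3 : m < r := by
    by_contra h
    push Not at h
    have := Nat.mul_le_mul h h
    omega
  have h4 : r < m + 1 := by
    by_contra h
    push Not at h
    have := Nat.mul_le_mul h h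
    omega
  omega

/-- one conjugate, with `A² = 3` and `B² = 14` -/
theorem mem_of_sq {M : IntermediateField ℚ Om} (hM : ContainsD4 M) {α A B : Om}
    (hA : A ^ 2 = 3) (hB : B ^ 2 = 14)
    (hα : α ^ 2 = -21 - 7 * A - 9 / 2 * B - 5 / 2 * (A * B)) (hα0 : α ≠ 0) : α ∈ M := by
  have h3 : ¬ IsSquare (3 : ℚ) := by
    have := not_isSquare_nat (n := 3) (m := 1) (by norm_num) (by norm_num)
    exact_mod_cast this
  have h14 : ¬ IsSquare (14 : ℚ) := by
    have := not_isSquare_nat (n := 14) (m := 3) (by norm_num) (by norm_num)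
    exact_mod_cast this
  have c1 : algebraMap ℚ Om 3 = 3 := map_ofNat _ 3
  have c2 : algebraMap ℚ Om 14 = 14 := map_ofNat _ 14
  have c3 : algebraMap ℚ Om (-84) = -84 := by rw [map_neg, map_ofNat]
  have c4 : algebraMap ℚ Om (-2) = -2 := by rw [map_neg, map_ofNat]
  have c5 : algebraMap ℚ Om 4 = 4 := map_ofNat _ 4
  refine mem_explicit hM (q₀ := α) (q₁ := (2 * (A * B) + 7 * A) / α)
    (q₂ := (3 / 2 * B - 1 / 2 * (A * B)) / α) (q₃ := (-7 * A - 3 * B) / α) (α := A) (β := B)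
    (n := -84) (a := 3) (b := 14) (p₁ := 1) (p₂ := 1) (p₃ := 1) (r₂ := -2) (c₂ := 4)
    (by norm_num) h3 h14 (by rw [c1, hA]) (by rw [c2, hB]) ?_ ?_ ?_ ?_ ?_ ?_
  · simp only [c3]
    field_simp
    linear_combination (336 + 4 * (α ^ 2 + (-21 - 7 * A - 9 / 2 * B - 5 / 2 * (A * B)))) * hα +
      (588 + 252 * B + 42 * B ^ 2) * hA + (252 + 84 * A) * hB
  · simp only [c3, map_one]
    field_simp
    linear_combination (84 - 6 * A * B - 14 * A ^ 2) * hα +
      (294 + 126 * B + 21 * B ^ 2 + 98 * A + 28 * A * B - 2 * A * B ^ 2) * hA + (63 + 21 * A) * hB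
  · simp only [c3, map_one]
    field_simp
    linear_combination (336 + 4 * A * (α ^ 2 + (-21 - 7 * A - 9 / 2 * B - 5 / 2 * (A * B)))) * hα +
      (1176 + 504 * B + 84 * B ^ 2 - 196 * A + 28 * A * B + 10 * A * B ^ 2) * hA +
      (252 + 84 * A) * hB
  · simp only [c3, map_one]
    field_simp
    linear_combination (84 - 14 * A ^ 2 - 4 * A ^ 2 * B) * hα +
      (294 + 126 * B + 21 * B ^ 2 + 98 * A + 70 * A * B + 10 * A * B ^ 2) * hA + (63 + 21 * A) * hB
  · simp only [c3, c4]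
    field_simp
    linear_combination (-168 + 6 * B ^ 2 + 14 * A * B) * hα +
      (-98 * B - 42 * B ^ 2 - 2 * B ^ 3) * hA + (-252 - 33 * B - 84 * A - 9 * A * B) * hB
  · simp only [c3, c5]
    field_simp
    linear_combination (336 - 14 * A ^ 2 * B - 4 * A ^ 2 * B ^ 2) * hα +
      (294 * B + 168 * B ^ 2 + 15 * B ^ 3 + 98 * A * B + 56 * A * B ^ 2 + 10 * A * B ^ 3) * hA +
      (504 + 45 * B + 168 * A + 39 * A * B) * hB

theorem root_mem {M : IntermediateField ℚ Om} (hM : ContainsD4 M) {α : Om}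
    (hα : α ^ 8 + 84 * α ^ 6 + 1260 * α ^ 4 + 5292 * α ^ 2 + 441 = 0) : α ∈ M := by
  have hα0 : α ≠ 0 := by
    rintro rfl
    norm_num at hα
  obtain ⟨A₀, hA₀⟩ := IsAlgClosed.exists_pow_nat_eq (3 : Om) (n := 2) (by norm_num)
  obtain ⟨B₀, hB₀⟩ := IsAlgClosed.exists_pow_nat_eq (14 : Om) (n := 2) (by norm_num)
  -- choose the sign of `A`
  have h1 : ∃ A : Om, A ^ 2 = 3 ∧ α ^ 4 + 42 * α ^ 2 + 42 = -(A * (14 * α ^ 2 - 21)) := by
    have e : (α ^ 4 + 42 * α ^ 2 + 42) ^ 2 = (A₀ * (14 * α ^ 2 - 21)) ^ 2 := by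
      linear_combination hα - (14 * α ^ 2 - 21) ^ 2 * hA₀
    rcases sq_eq_sq_iff_eq_or_eq_neg.1 e with h | h
    · refine ⟨-A₀, by rw [neg_sq]; exact hA₀, ?_⟩
      rw [h]; ring
    · exact ⟨A₀, hA₀, h⟩
  obtain ⟨A, hA, h1⟩ := h1
  have h2 : ∃ B : Om, B ^ 2 = 14 ∧ α ^ 2 + 21 + 7 * A = -(B * (9 / 2 + 5 / 2 * A)) := by
    have e : (α ^ 2 + 21 + 7 * A) ^ 2 = (B₀ * (9 / 2 + 5 / 2 * A)) ^ 2 := by
      linear_combination h1 - (9 / 2 + 5 / 2 * A) ^ 2 * hB₀ - (77 / 2) * hA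
    rcases sq_eq_sq_iff_eq_or_eq_neg.1 e with h | h
    · refine ⟨-B₀, by rw [neg_sq]; exact hB₀, ?_⟩
      rw [h]; ring
    · exact ⟨B₀, hB₀, h⟩
  obtain ⟨B, hB, h2⟩ := h2
  exact mem_of_sq hM hA hB (by linear_combination h2) hα0

/-- **The field generated by any root of the octic polynomial lies in `ℚ_{D₄}`.** -/
theorem result : ∀ α : AlgebraicClosure ℚ,
    α ^ 8 + 84 * α ^ 6 + 1260 * α ^ 4 + 5292 * α ^ 2 + 441 = 0 →
    IntermediateField.adjoin ℚ {α} ≤ dihedralCompositum := by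
  intro α hα
  rw [IntermediateField.adjoin_simple_le_iff]
  have hM : ContainsD4 dihedralCompositum := fun L h1 h2 => le_sSup ⟨h1, h2⟩
  exact root_mem hM hα

end Pool.Agent.Results.MP_0ba956_nt.OcticInCompositum
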